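import Mathlib

/-!
# MP_a29272_gt, question 1: the second fundamental form of the unit sphere

For a metric `g_x(v,w) = ⟪v,w⟫ + ⟪x,v⟫⟪Θ x,w⟫ + ⟪x,w⟫⟪Θ x,v⟫` with `⟪x, Θ x⟫ = 0` the radial
component of the acceleration of a curve in the unit sphere is `(⟪DΘ e, e⟫ - |e|²)/(1 - |Θ|²)`;
for the shift `Θ` of the counterexample it takes both signs at every point, so that no function
can have a positive definite Hessian at its maximum on the sphere.
-/

namespace Pool.Agent.Lib_MP_a29272_sp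

open Set Metric
open scoped ContDiff RealInnerProductSpace

section SPart

variable {E : Type*} [NormedAddCommGroup E] [InnerProductSpace ℝ E]

lemma hasDerivAt_line (x u : E) : HasDerivAt (fun t : ℝ => x + t • u) u 0 := by
  simpa using ((hasDerivAt_id (0 : ℝ)).smul_const u).const_add x

/-- the derivative of a metric of the form `⟪v,w⟫ + ⟪x,v⟫⟪Θ x,w⟫ + ⟪x,w⟫⟪Θ x,v⟫` -/
lemma fderiv_metric {g : E → E →L[ℝ] E →L[ℝ] ℝ} {Θ : E → E}
    (hg : ∀ x v w, g x v w = ⟪v, w⟫ + ⟪x, v⟫ * ⟪Θ x, w⟫ + ⟪x, w⟫ * ⟪Θ x, v⟫) {p : E}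
    (hgd : DifferentiableAt ℝ g p) (hΘd : DifferentiableAt ℝ Θ p) (u v w : E) :
    fderiv ℝ g p u v w = ⟪u, v⟫ * ⟪Θ p, w⟫ + ⟪p, v⟫ * ⟪fderiv ℝ Θ p u, w⟫
      + ⟪u, w⟫ * ⟪Θ p, v⟫ + ⟪p, w⟫ * ⟪fderiv ℝ Θ p u, v⟫ := by
  have h0 : HasFDerivAt g (fderiv ℝ g p) (p + (0 : ℝ) • u) := by
    simpa using hgd.hasFDerivAt
  have h1 : HasDerivAt (fun t : ℝ => g (p + t • u)) (fderiv ℝ g p u) 0 :=
    HasFDerivAt.comp_hasDerivAt (f := fun t : ℝ => p + t • u) (l := g) 0 h0 (hasDerivAt_line p u)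
  have h2 : HasDerivAt (fun t : ℝ => g (p + t • u) v w) (fderiv ℝ g p u v w) 0 := by
    have h3 := (h1.clm_apply (hasDerivAt_const (0 : ℝ) v)).clm_apply (hasDerivAt_const (0 : ℝ) w)
    simpa using h3
  have hT0 : HasFDerivAt Θ (fderiv ℝ Θ p) (p + (0 : ℝ) • u) := by
    simpa using hΘd.hasFDerivAt
  have hT : HasDerivAt (fun t : ℝ => Θ (p + t • u)) (fderiv ℝ Θ p u) 0 :=
    HasFDerivAt.comp_hasDerivAt (f := fun t : ℝ => p + t • u) (l := Θ) 0 hT0 (hasDerivAt_line p u)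
  have hin : ∀ z, HasDerivAt (fun t : ℝ => ⟪p + t • u, z⟫) ⟪u, z⟫ 0 := by
    intro z
    simpa using (hasDerivAt_line p u).inner ℝ (hasDerivAt_const (0 : ℝ) z)
  have hTin : ∀ z, HasDerivAt (fun t : ℝ => ⟪Θ (p + t • u), z⟫) ⟪fderiv ℝ Θ p u, z⟫ 0 := by
    intro z
    simpa using hT.inner ℝ (hasDerivAt_const (0 : ℝ) z)
  have h4 : HasDerivAt (fun t : ℝ => g (p + t • u) v w)
      (⟪u, v⟫ * ⟪Θ p, w⟫ + ⟪p, v⟫ * ⟪fderiv ℝ Θ p u, w⟫
      + ⟪u, w⟫ * ⟪Θ p, v⟫ + ⟪p, w⟫ * ⟪fderiv ℝ Θ p u, v⟫) 0 := by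
    have h5 : (fun t : ℝ => g (p + t • u) v w) = fun t : ℝ => ⟪v, w⟫ +
        ⟪p + t • u, v⟫ * ⟪Θ (p + t • u), w⟫ + ⟪p + t • u, w⟫ * ⟪Θ (p + t • u), v⟫ := by
      funext t
      exact hg _ _ _
    rw [h5]
    refine ((((hin v).mul (hTin w)).const_add ⟪v, w⟫).add ((hin w).mul (hTin v))).congr_deriv ?_
    simp only [zero_smul, add_zero]
    ring
  exact h2.unique h4

/-- the radial component of the Christoffel symbol on the unit sphere -/
lemma radial_christoffel {g : E → E →L[ℝ] E →L[ℝ] ℝ} {Θ : E → E}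
    (hg : ∀ x v w, g x v w = ⟪v, w⟫ + ⟪x, v⟫ * ⟪Θ x, w⟫ + ⟪x, w⟫ * ⟪Θ x, v⟫) {p : E}
    (hgd : DifferentiableAt ℝ g p) (hΘd : DifferentiableAt ℝ Θ p)
    (hp : ‖p‖ = 1) (hΘ0 : ⟪p, Θ p⟫ = 0) {e : E} (he : ⟪p, e⟫ = 0) {Γ : E}
    (h : ∀ z, g p Γ z = (1 / 2) * (fderiv ℝ g p e e z + fderiv ℝ g p e e z - fderiv ℝ g p z e e)) :
    ⟪p, Γ⟫ * (1 - ‖Θ p‖ ^ 2) = ⟪fderiv ℝ Θ p e, e⟫ - ‖e‖ ^ 2 * ‖Θ p‖ ^ 2 := by
  have hpp : ⟪p, p⟫ = 1 := by rw [real_inner_self_eq_norm_sq, hp]; norm_num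
  have h1 := h p
  have h2 := h (Θ p)
  rw [hg, fderiv_metric hg hgd hΘd, fderiv_metric hg hgd hΘd] at h1 h2
  have e1 : ⟪Θ p, p⟫ = 0 := by rw [real_inner_comm]; exact hΘ0
  have e2 : ⟪Γ, p⟫ = ⟪p, Γ⟫ := real_inner_comm _ _
  have e3 : ⟪Γ, Θ p⟫ = ⟪Θ p, Γ⟫ := real_inner_comm _ _
  have e4 : ⟪e, p⟫ = 0 := by rw [real_inner_comm]; exact he
  have e5 : ⟪e, Θ p⟫ = ⟪Θ p, e⟫ := real_inner_comm _ _
  rw [e1, e2, hpp, he, e4] at h1
  rw [e3, hΘ0, he, e5, real_inner_self_eq_norm_sq, real_inner_self_eq_norm_sq] at h2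
  linear_combination h1 - h2

/-- second derivative test at a global maximum -/
lemma second_deriv_test {h h' : ℝ → ℝ} {h'' : ℝ} (h1 : ∀ t, HasDerivAt h (h' t) t)
    (h2 : HasDerivAt h' h'' 0) (hmax : ∀ t, h t ≤ h 0) : h'' ≤ 0 := by
  by_contra hpos
  push Not at hpos
  have hd : deriv h = h' := by
    funext t
    exact (h1 t).deriv
  have hd2 : deriv (deriv h) 0 = h'' := by
    rw [hd]
    exact h2.deriv
  have hloc : IsLocalMax h 0 := Filter.Eventually.of_forall hmax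
  have hd0 : deriv h 0 = 0 := hloc.deriv_eq_zero
  have hmin : IsLocalMin h 0 :=
    isLocalMin_of_deriv_deriv_pos (by rw [hd2]; exact hpos) hd0 (h1 0).continuousAt
  have hconst : h =ᶠ[nhds 0] fun _ => h 0 := by
    filter_upwards [hmin] with t ht
    exact le_antisymm (hmax t) ht
  have h3 : deriv h =ᶠ[nhds 0] deriv (fun _ : ℝ => h 0) := hconst.deriv
  have h4 := h3.deriv_eq
  rw [hd2] at h4
  simp at h4
  linarith

/-- Second order information at a maximum point of `f` on the unit sphere. -/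
lemma sphere_max {f : E → ℝ} {r : ℝ} (hr : 1 < r)
    (hf : ContDiffOn ℝ 2 f (ball 0 r)) {p : E} (hp : ‖p‖ = 1)
    (hmax : ∀ x, ‖x‖ = 1 → f x ≤ f p) {v : E} (hv : ‖v‖ = 1) (hpv : ⟪p, v⟫ = 0) :
    fderiv ℝ f p v = 0 ∧ fderiv ℝ (fderiv ℝ f) p v v ≤ fderiv ℝ f p p := by
  let c : ℝ → E := fun t => Real.cos t • p + Real.sin t • v
  let c' : ℝ → E := fun t => -Real.sin t • p + Real.cos t • v
  have hc : ∀ t, HasDerivAt c (c' t) t := fun t =>
    ((Real.hasDerivAt_cos t).smul_const p).add ((Real.hasDerivAt_sin t).smul_const v)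
  have hc' : HasDerivAt c' (-p) 0 := by
    have := (((Real.hasDerivAt_sin 0).neg).smul_const p).add
      ((Real.hasDerivAt_cos 0).smul_const v)
    refine this.congr_deriv ?_
    simp
  have hcS : ∀ t, ‖c t‖ = 1 := by
    intro t
    have h1 : ‖c t‖ ^ 2 = 1 := by
      rw [← real_inner_self_eq_norm_sq]
      simp only [c, inner_add_left, inner_add_right, real_inner_smul_left, real_inner_smul_right]
      have hvp : ⟪v, p⟫ = 0 := by rw [real_inner_comm]; exact hpv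
      rw [hpv, hvp, real_inner_self_eq_norm_sq, real_inner_self_eq_norm_sq, hp, hv]
      have := Real.sin_sq_add_cos_sq t
      linarith
    nlinarith [norm_nonneg (c t)]
  have hcball : ∀ t, c t ∈ ball (0 : E) r := by
    intro t
    rw [mem_ball_zero_iff, hcS t]
    exact hr
  have hfd : ∀ t, HasFDerivAt f (fderiv ℝ f (c t)) (c t) := by
    intro t
    have := (hf.contDiffAt (isOpen_ball.mem_nhds (hcball t))).differentiableAt (by norm_num)
    exact this.hasFDerivAt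
  have h1 : ∀ t, HasDerivAt (fun t => f (c t)) (fderiv ℝ f (c t) (c' t)) t := fun t =>
    HasFDerivAt.comp_hasDerivAt (l := f) t (hfd t) (hc t)
  have hc0 : c 0 = p := by simp [c]
  have hc0' : c' 0 = v := by simp [c']
  have hfd2 : HasFDerivAt (fderiv ℝ f) (fderiv ℝ (fderiv ℝ f) p) p := by
    have hxb : p ∈ ball (0 : E) r := hc0 ▸ hcball 0
    have h := hf.contDiffAt (isOpen_ball.mem_nhds hxb)
    have h' : ContDiffAt ℝ 1 (fderiv ℝ f) p := h.fderiv_right (by norm_num)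
    exact (h'.differentiableAt (by norm_num)).hasFDerivAt
  have h2 : HasDerivAt (fun t => fderiv ℝ f (c t) (c' t))
      (fderiv ℝ (fderiv ℝ f) p v v + fderiv ℝ f p (-p)) 0 := by
    have h3 : HasDerivAt (fun t => fderiv ℝ f (c t)) (fderiv ℝ (fderiv ℝ f) p v) 0 := by
      have hfd2' : HasFDerivAt (fderiv ℝ f) (fderiv ℝ (fderiv ℝ f) p) (c 0) := by
        rw [hc0]; exact hfd2
      have := HasFDerivAt.comp_hasDerivAt (f := c) (l := fderiv ℝ f) 0 hfd2' (hc 0)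
      rw [hc0'] at this
      exact this
    have h4 := h3.clm_apply hc'
    rw [hc0, hc0'] at h4
    exact h4
  have hmax' : ∀ t, f (c t) ≤ f (c 0) := by
    intro t
    rw [hc0]
    exact hmax _ (hcS t)
  constructor
  · have hloc : IsLocalMax (fun t => f (c t)) 0 := Filter.Eventually.of_forall hmax'
    have := hloc.hasDerivAt_eq_zero (h1 0)
    rwa [hc0, hc0'] at this
  · have := second_deriv_test h1 h2 hmax'
    rw [map_neg] at this
    linarith

/-- the Hessian at a maximum point of `f` on the unit sphere -/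
lemma hessian_at_max {g : E → E →L[ℝ] E →L[ℝ] ℝ} {Θ : E → E}
    (hg : ∀ x v w, g x v w = ⟪v, w⟫ + ⟪x, v⟫ * ⟪Θ x, w⟫ + ⟪x, w⟫ * ⟪Θ x, v⟫) {p : E}
    (hgd : DifferentiableAt ℝ g p) (hΘd : DifferentiableAt ℝ Θ p)
    (hp : ‖p‖ = 1) (hΘ0 : ⟪p, Θ p⟫ = 0)
    (hΘ1 : ‖Θ p‖ < 1) {f : E → ℝ} {r : ℝ} (hr : 1 < r) (hf : ContDiffOn ℝ 2 f (ball 0 r))
    (hmax : ∀ x, ‖x‖ = 1 → f x ≤ f p) {e : E} (he : e ≠ 0) (hpe : ⟪p, e⟫ = 0) {Γ : E}
    (h : ∀ z, g p Γ z = (1 / 2) * (fderiv ℝ g p e e z + fderiv ℝ g p e e z - fderiv ℝ g p z e e)) :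
    fderiv ℝ (fderiv ℝ f) p e e - fderiv ℝ f p Γ ≤
      fderiv ℝ f p p * ((‖e‖ ^ 2 - ⟪fderiv ℝ Θ p e, e⟫) / (1 - ‖Θ p‖ ^ 2)) := by
  have hn : 0 < ‖e‖ := norm_pos_iff.2 he
  have hD : 0 < 1 - ‖Θ p‖ ^ 2 := by nlinarith [norm_nonneg (Θ p)]
  have hpp : ⟪p, p⟫ = 1 := by rw [real_inner_self_eq_norm_sq, hp]; norm_num
  -- the differential of `f` is radial
  have hrad : ∀ w, fderiv ℝ f p w = ⟪p, w⟫ * fderiv ℝ f p p := by
    intro w
    set u := w - ⟪p, w⟫ • p with hu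
    have hpu : ⟪p, u⟫ = 0 := by
      rw [hu, inner_sub_right, real_inner_smul_right, hpp]
      ring
    have h0 : fderiv ℝ f p u = 0 := by
      by_cases hu0 : u = 0
      · rw [hu0, map_zero]
      · have hun : 0 < ‖u‖ := norm_pos_iff.2 hu0
        have h1 := (sphere_max hr hf hp hmax (v := (‖u‖⁻¹ : ℝ) • u)
          (by rw [norm_smul, norm_inv, norm_norm, inv_mul_cancel₀ hun.ne'])
          (by rw [real_inner_smul_right, hpu, mul_zero])).1
        rw [map_smul, smul_eq_mul] at h1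
        exact (mul_eq_zero.1 h1).resolve_left (inv_ne_zero hun.ne')
    have h2 : w = u + ⟪p, w⟫ • p := by rw [hu]; abel
    calc fderiv ℝ f p w = fderiv ℝ f p (u + ⟪p, w⟫ • p) := by rw [← h2]
      _ = _ := by rw [map_add, map_smul, h0, smul_eq_mul, zero_add]
  have hsec : fderiv ℝ (fderiv ℝ f) p e e ≤ ‖e‖ ^ 2 * fderiv ℝ f p p := by
    have h1 := (sphere_max hr hf hp hmax (v := (‖e‖⁻¹ : ℝ) • e)
      (by rw [norm_smul, norm_inv, norm_norm, inv_mul_cancel₀ hn.ne'])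
      (by rw [real_inner_smul_right, hpe, mul_zero])).2
    simp only [map_smul, smul_apply, smul_eq_mul] at h1
    have h2 : fderiv ℝ (fderiv ℝ f) p e e =
        ‖e‖ ^ 2 * (‖e‖⁻¹ * (‖e‖⁻¹ * fderiv ℝ (fderiv ℝ f) p e e)) := by
      field_simp
    rw [h2]
    gcongr
  have hΓ := radial_christoffel hg hgd hΘd hp hΘ0 hpe h
  rw [hrad Γ]
  have hΓ' : ⟪p, Γ⟫ =
      (⟪fderiv ℝ Θ p e, e⟫ - ‖e‖ ^ 2 * ‖Θ p‖ ^ 2) / (1 - ‖Θ p‖ ^ 2) := by
    rw [eq_div_iff hD.ne']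
    exact hΓ
  rw [hΓ']
  have h3 : fderiv ℝ f p p * ((‖e‖ ^ 2 - ⟪fderiv ℝ Θ p e, e⟫) / (1 - ‖Θ p‖ ^ 2)) =
      ‖e‖ ^ 2 * fderiv ℝ f p p - (⟪fderiv ℝ Θ p e, e⟫ - ‖e‖ ^ 2 * ‖Θ p‖ ^ 2) /
        (1 - ‖Θ p‖ ^ 2) * fderiv ℝ f p p := by
    field_simp
    ring
  rw [h3]
  linarith

/-- **No strictly convex function.** -/
theorem no_convex_of_two_signs [FiniteDimensional ℝ E] [Nontrivial E]
    {g : E → E →L[ℝ] E →L[ℝ] ℝ} {Θ : E → E}
    (hg : ∀ x v w, g x v w = ⟪v, w⟫ + ⟪x, v⟫ * ⟪Θ x, w⟫ + ⟪x, w⟫ * ⟪Θ x, v⟫)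
    (hgd : ∀ p, ‖p‖ = 1 → DifferentiableAt ℝ g p) (hΘd : ∀ p, ‖p‖ = 1 → DifferentiableAt ℝ Θ p)
    {Γ : E → E → E → E}
    (hΓ : ∀ p, ‖p‖ = 1 → ∀ v w z, g p (Γ p v w) z =
      (1 / 2) * (fderiv ℝ g p v w z + fderiv ℝ g p w v z - fderiv ℝ g p z v w))
    (hΘ0 : ∀ p, ⟪p, Θ p⟫ = 0)
    (hΘ1 : ∀ p, ‖p‖ = 1 → ‖Θ p‖ < 1)
    (hsig : ∀ p, ‖p‖ = 1 → (∃ e, e ≠ 0 ∧ ⟪p, e⟫ = 0 ∧ ⟪fderiv ℝ Θ p e, e⟫ < ‖e‖ ^ 2) ∧
      ∃ e, e ≠ 0 ∧ ⟪p, e⟫ = 0 ∧ ‖e‖ ^ 2 < ⟪fderiv ℝ Θ p e, e⟫)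
    {f : E → ℝ} {r : ℝ} (hr : 1 < r) (hf : ContDiffOn ℝ 2 f (ball 0 r)) :
    ∃ x ∈ ball (0 : E) r, ∃ v, v ≠ 0 ∧
      fderiv ℝ (fderiv ℝ f) x v v - fderiv ℝ f x (Γ x v v) ≤ 0 := by
  have hcomp : IsCompact (sphere (0 : E) 1) := isCompact_sphere 0 1
  have hne : (sphere (0 : E) 1).Nonempty := NormedSpace.sphere_nonempty.2 zero_le_one
  have hsub : sphere (0 : E) 1 ⊆ ball 0 r := by
    intro x hx
    rw [mem_ball_zero_iff]
    rw [mem_sphere_zero_iff_norm] at hx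
    linarith
  obtain ⟨p, hpS, hpmax⟩ := hcomp.exists_isMaxOn hne (hf.continuousOn.mono hsub)
  have hp : ‖p‖ = 1 := mem_sphere_zero_iff_norm.1 hpS
  have hmax : ∀ x, ‖x‖ = 1 → f x ≤ f p := fun x hx => hpmax (mem_sphere_zero_iff_norm.2 hx)
  obtain ⟨⟨e1, he1, hpe1, h1⟩, e2, he2, hpe2, h2⟩ := hsig p hp
  have hD : 0 < 1 - ‖Θ p‖ ^ 2 := by
    have := hΘ1 p hp
    nlinarith [norm_nonneg (Θ p)]
  refine ⟨p, hsub hpS, ?_⟩
  rcases le_total (fderiv ℝ f p p) 0 with hL | hL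
  · refine ⟨e1, he1, ?_⟩
    have := hessian_at_max hg (hgd p hp) (hΘd p hp) hp (hΘ0 p) (hΘ1 p hp) hr hf hmax
      he1 hpe1 (hΓ p hp e1 e1)
    refine this.trans ?_
    apply mul_nonpos_of_nonpos_of_nonneg hL
    apply div_nonneg _ hD.le
    linarith
  · refine ⟨e2, he2, ?_⟩
    have := hessian_at_max hg (hgd p hp) (hΘd p hp) hp (hΘ0 p) (hΘ1 p hp) hr hf hmax
      he2 hpe2 (hΓ p hp e2 e2)
    refine this.trans ?_
    apply mul_nonpos_of_nonneg_of_nonpos hL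
    apply div_nonpos_of_nonpos_of_nonneg _ hD.le
    linarith

end SPart

section Signs

abbrev E4 := EuclideanSpace ℝ (Fin 4)

/-- unit vectors -/
noncomputable def ev (j : Fin 4) : E4 := EuclideanSpace.single j 1

/-- the vector with given coordinates -/
noncomputable def vec (a b c d : ℝ) : E4 := a • ev 0 + b • ev 1 + c • ev 2 + d • ev 3

@[simp] lemma vec_0 (a b c d : ℝ) : vec a b c d 0 = a := by simp [vec, ev]
@[simp] lemma vec_1 (a b c d : ℝ) : vec a b c d 1 = b := by simp [vec, ev]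
@[simp] lemma vec_2 (a b c d : ℝ) : vec a b c d 2 = c := by simp [vec, ev]
@[simp] lemma vec_3 (a b c d : ℝ) : vec a b c d 3 = d := by simp [vec, ev]

lemma inner_eq4 (x y : E4) : ⟪x, y⟫ = x 0 * y 0 + x 1 * y 1 + x 2 * y 2 + x 3 * y 3 := by
  simp only [PiLp.inner_apply, RCLike.inner_apply, conj_trivial, Fin.sum_univ_four]
  ring

lemma eq_vec (x : E4) : x = vec (x 0) (x 1) (x 2) (x 3) := by
  ext j
  fin_cases j <;> simp

/-- the parametrisation of the sphere -/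
noncomputable def par (s a b : ℝ) : E4 :=
  vec (Real.cos s * Real.cos a) (Real.cos s * Real.sin a) (Real.sin s * Real.cos b)
    (Real.sin s * Real.sin b)

lemma norm_par (s a b : ℝ) : ‖par s a b‖ = 1 := by
  have h : ⟪par s a b, par s a b⟫ = 1 := by
    rw [inner_eq4]
    simp only [par, vec_0, vec_1, vec_2, vec_3]
    have h1 := Real.sin_sq_add_cos_sq s
    have h2 := Real.sin_sq_add_cos_sq a
    have h3 := Real.sin_sq_add_cos_sq b
    linear_combination (Real.cos s) ^ 2 * h2 + (Real.sin s) ^ 2 * h3 + h1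
  rw [real_inner_self_eq_norm_sq] at h
  nlinarith [norm_nonneg (par s a b)]

lemma exists_par (p : E4) (hp : ‖p‖ = 1) : ∃ s a b, p = par s a b := by
  have h : ⟪p, p⟫ = 1 := by rw [real_inner_self_eq_norm_sq, hp]; norm_num
  rw [inner_eq4] at h
  set z1 : ℂ := ⟨p 0, p 1⟩ with hz1
  set z2 : ℂ := ⟨p 2, p 3⟩ with hz2
  set w : ℂ := ⟨‖z1‖, ‖z2‖⟩ with hw
  have hn1 : ‖z1‖ ^ 2 = p 0 * p 0 + p 1 * p 1 := by
    rw [← Complex.normSq_eq_norm_sq, Complex.normSq_apply]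
  have hn2 : ‖z2‖ ^ 2 = p 2 * p 2 + p 3 * p 3 := by
    rw [← Complex.normSq_eq_norm_sq, Complex.normSq_apply]
  have hnw : ‖w‖ = 1 := by
    have : ‖w‖ ^ 2 = 1 := by
      rw [← Complex.normSq_eq_norm_sq, Complex.normSq_apply]
      have e1 : w.re * w.re = ‖z1‖ ^ 2 := by simp [hw, sq]
      have e2 : w.im * w.im = ‖z2‖ ^ 2 := by simp [hw, sq]
      rw [e1, e2, hn1, hn2]
      linarith
    nlinarith [norm_nonneg w]
  refine ⟨Complex.arg w, Complex.arg z1, Complex.arg z2, ?_⟩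
  have hc : Real.cos (Complex.arg w) = ‖z1‖ := by
    have := Complex.norm_mul_cos_arg w
    rw [hnw, one_mul] at this
    rw [this]
  have hs : Real.sin (Complex.arg w) = ‖z2‖ := by
    have := Complex.norm_mul_sin_arg w
    rw [hnw, one_mul] at this
    rw [this]
  rw [eq_vec p, par, hc, hs, Complex.norm_mul_cos_arg, Complex.norm_mul_sin_arg,
    Complex.norm_mul_cos_arg, Complex.norm_mul_sin_arg]

/-- velocity of the curve `t ↦ par (s + α t) (a + β t) (b + β t)` at angle parameters `s a b` -/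
noncomputable def vel (α β s a b : ℝ) : E4 :=
  vec (-α * Real.sin s * Real.cos a - β * Real.cos s * Real.sin a)
    (-α * Real.sin s * Real.sin a + β * Real.cos s * Real.cos a)
    (α * Real.cos s * Real.cos b - β * Real.sin s * Real.sin b)
    (α * Real.cos s * Real.sin b + β * Real.sin s * Real.cos b)

/-- the vector `J E` -/
noncomputable def JE (s a b : ℝ) : E4 :=
  vec (Real.sin s * Real.sin a) (-(Real.sin s * Real.cos a)) (-(Real.cos s * Real.sin b))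
    (Real.cos s * Real.cos b)

lemma hasDerivAt_vec {f0 f1 f2 f3 : ℝ → ℝ} {a b c d t : ℝ} (h0 : HasDerivAt f0 a t)
    (h1 : HasDerivAt f1 b t) (h2 : HasDerivAt f2 c t) (h3 : HasDerivAt f3 d t) :
    HasDerivAt (fun t => vec (f0 t) (f1 t) (f2 t) (f3 t)) (vec a b c d) t := by
  unfold vec
  exact (((h0.smul_const _).add (h1.smul_const _)).add (h2.smul_const _)).add (h3.smul_const _)

lemma hasDerivAt_lin (s α t : ℝ) : HasDerivAt (fun t => s + α * t) α t := by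
  simpa using ((hasDerivAt_id t).const_mul α).const_add s

lemma hasDerivAt_par (α β s a b t : ℝ) :
    HasDerivAt (fun t => par (s + α * t) (a + β * t) (b + β * t))
      (vel α β (s + α * t) (a + β * t) (b + β * t)) t := by
  have hs := hasDerivAt_lin s α t
  have ha := hasDerivAt_lin a β t
  have hb := hasDerivAt_lin b β t
  refine (hasDerivAt_vec (hs.cos.mul ha.cos) (hs.cos.mul ha.sin) (hs.sin.mul hb.cos)
    (hs.sin.mul hb.sin)).congr_deriv ?_
  unfold vel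
  congr 1 <;> ring

lemma hasDerivAt_vel (α β s a b : ℝ) :
    HasDerivAt (fun t => vel α β (s + α * t) (a + β * t) (b + β * t))
      (-(α ^ 2 + β ^ 2) • par s a b + (2 * α * β) • JE s a b) 0 := by
  have hs := hasDerivAt_lin s α 0
  have ha := hasDerivAt_lin a β 0
  have hb := hasDerivAt_lin b β 0
  have e : -(α ^ 2 + β ^ 2) • par s a b + (2 * α * β) • JE s a b =
      vec (-(α ^ 2 + β ^ 2) * (Real.cos s * Real.cos a)
          + 2 * α * β * (Real.sin s * Real.sin a))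
        (-(α ^ 2 + β ^ 2) * (Real.cos s * Real.sin a)
          + 2 * α * β * (-(Real.sin s * Real.cos a)))
        (-(α ^ 2 + β ^ 2) * (Real.sin s * Real.cos b)
          + 2 * α * β * (-(Real.cos s * Real.sin b)))
        (-(α ^ 2 + β ^ 2) * (Real.sin s * Real.sin b)
          + 2 * α * β * (Real.cos s * Real.cos b)) := by
    simp only [par, JE, vec]
    module
  rw [e]
  refine (hasDerivAt_vec
    (((hs.sin.const_mul (-α)).mul ha.cos).sub ((hs.cos.const_mul β).mul ha.sin))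
    (((hs.sin.const_mul (-α)).mul ha.sin).add ((hs.cos.const_mul β).mul ha.cos))
    (((hs.cos.const_mul α).mul hb.cos).sub ((hs.sin.const_mul β).mul hb.sin))
    (((hs.cos.const_mul α).mul hb.sin).add ((hs.sin.const_mul β).mul hb.cos))).congr_deriv ?_
  simp only [mul_zero, add_zero]
  congr 1 <;> ring

/-- the skew form `⟪J x, w⟫` -/
def jf (x w : E4) : ℝ := x 0 * w 1 - x 1 * w 0 + x 2 * w 3 - x 3 * w 2

/-- an even differentiable function has derivative zero -/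
lemma deriv_even {h : ℝ → ℝ} {h' : ℝ} (hd : HasDerivAt h h' 0) (he : ∀ t, h (-t) = h t) :
    h' = 0 := by
  have h1 : HasDerivAt (fun t => h (-t)) (-h') 0 := by
    have h2 : HasDerivAt (fun t : ℝ => -t) (-1) 0 := (hasDerivAt_id 0).neg
    have h3 : HasDerivAt h h' (-(0 : ℝ)) := by simpa using hd
    have := h3.comp (0 : ℝ) h2
    simpa [Function.comp_def] using this
  have h4 : HasDerivAt h (-h') 0 := by
    refine h1.congr_of_eventuallyEq ?_
    filter_upwards with t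
    exact (he t).symm
  have := h4.unique hd
  linarith

theorem key_form (M : ℕ) (hM : 1 ≤ M) (P : E4 → ℝ) (hPd : Differentiable ℝ P)
    (hP1 : ∀ s a b, P (par s a b) = Real.cos (2 * M * s))
    (hP2 : ∀ x y : E4, x 0 ^ 2 + x 1 ^ 2 = y 0 ^ 2 + y 1 ^ 2 →
      x 2 ^ 2 + x 3 ^ 2 = y 2 ^ 2 + y 3 ^ 2 → P x = P y)
    (Θ : E4 → E4) (hΘ0 : ∀ x, ⟪x, Θ x⟫ = 0)
    (hΘ : ∀ x, ‖x‖ = 1 → ∀ w, ⟪Θ x, w⟫ =
      -(3 / (M : ℝ)) * P x * (jf x w + 1 / (2 * M) * fderiv ℝ P x w - P x * ⟪x, w⟫))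
    (s a b : ℝ) (hΘd : DifferentiableAt ℝ Θ (par s a b)) (α β : ℝ) :
    ⟪fderiv ℝ Θ (par s a b) (vel α β s a b), vel α β s a b⟫ =
      6 * (α * β * Real.sin (2 * M * s) + α ^ 2 * Real.cos (2 * (2 * M * s))) := by
  have hM' : (M : ℝ) ≠ 0 := by positivity
  set p := par s a b with hp
  set c : ℝ → E4 := fun t => par (s + α * t) (a + β * t) (b + β * t) with hc
  set c' : ℝ → E4 := fun t => vel α β (s + α * t) (a + β * t) (b + β * t) with hc'
  have hc0 : c 0 = p := by simp [hc, hp]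
  have hc'0 : c' 0 = vel α β s a b := by simp [hc']
  have hcd : ∀ t, HasDerivAt c (c' t) t := fun t => hasDerivAt_par α β s a b t
  have hc'd : HasDerivAt c' (-(α ^ 2 + β ^ 2) • par s a b + (2 * α * β) • JE s a b) 0 :=
    hasDerivAt_vel α β s a b
  -- derivative of `P` along the curve
  have hPc : ∀ t, fderiv ℝ P (c t) (c' t) = -(2 * M * α) * Real.sin (2 * M * (s + α * t)) := by
    intro t
    have h1 : HasDerivAt (fun t => P (c t)) (fderiv ℝ P (c t) (c' t)) t :=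
      (hPd (c t)).hasFDerivAt.comp_hasDerivAt t (hcd t)
    have h2 : HasDerivAt (fun t => P (c t)) (-(2 * M * α) * Real.sin (2 * M * (s + α * t))) t := by
      have h3 : (fun t => P (c t)) = fun t => Real.cos (2 * M * (s + α * t)) := by
        funext t
        exact hP1 _ _ _
      rw [h3]
      have h4 := ((hasDerivAt_lin s α t).const_mul (2 * (M : ℝ))).cos
      refine h4.congr_deriv ?_
      ring
    exact h1.unique h2
  have hjf : ∀ t, jf (c t) (c' t) = β := by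
    intro t
    simp only [jf, hc, hc', par, vel, vec_0, vec_1, vec_2, vec_3]
    have h1 := Real.sin_sq_add_cos_sq (s + α * t)
    have h2 := Real.sin_sq_add_cos_sq (a + β * t)
    have h3 := Real.sin_sq_add_cos_sq (b + β * t)
    linear_combination β * (Real.cos (s + α * t)) ^ 2 * h2
      + β * (Real.sin (s + α * t)) ^ 2 * h3 + β * h1
  have hcc : ∀ t, ⟪c t, c' t⟫ = 0 := by
    intro t
    rw [inner_eq4]
    simp only [hc, hc', par, vel, vec_0, vec_1, vec_2, vec_3]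
    have h2 := Real.sin_sq_add_cos_sq (a + β * t)
    have h3 := Real.sin_sq_add_cos_sq (b + β * t)
    linear_combination (-α) * Real.cos (s + α * t) * Real.sin (s + α * t) * h2
      + α * Real.cos (s + α * t) * Real.sin (s + α * t) * h3
  have hψ : ∀ t, ⟪Θ (c t), c' t⟫ = -(3 / (M : ℝ)) * Real.cos (2 * M * (s + α * t)) *
      (β - α * Real.sin (2 * M * (s + α * t))) := by
    intro t
    rw [hΘ (c t) (norm_par _ _ _), hjf, hPc, hcc]
    have : P (c t) = Real.cos (2 * M * (s + α * t)) := hP1 _ _ _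
    rw [this]
    field_simp
    ring
  -- derivative of this function in two ways
  have hd1 : HasDerivAt (fun t => ⟪Θ (c t), c' t⟫)
      (6 * (α * β * Real.sin (2 * M * s) + α ^ 2 * Real.cos (2 * (2 * M * s)))) 0 := by
    have h3 : (fun t => ⟪Θ (c t), c' t⟫) = fun t => -(3 / (M : ℝ)) *
        Real.cos (2 * M * (s + α * t)) * (β - α * Real.sin (2 * M * (s + α * t))) := by
      funext t
      exact hψ t
    rw [h3]
    have h4 := (hasDerivAt_lin s α 0).const_mul (2 * (M : ℝ))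
    refine ((h4.cos.const_mul (-(3 / (M : ℝ)))).mul
      ((h4.sin.const_mul α).const_sub β)).congr_deriv ?_
    simp only [mul_zero, add_zero]
    rw [Real.cos_two_mul']
    field_simp
    ring
  have hd2 : HasDerivAt (fun t => ⟪Θ (c t), c' t⟫)
      (⟪Θ p, -(α ^ 2 + β ^ 2) • par s a b + (2 * α * β) • JE s a b⟫ +
        ⟪fderiv ℝ Θ p (vel α β s a b), vel α β s a b⟫) 0 := by
    have h5 : HasDerivAt (fun t => Θ (c t)) (fderiv ℝ Θ p (vel α β s a b)) 0 := by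
      have h6 : HasFDerivAt Θ (fderiv ℝ Θ p) (c 0) := by
        rw [hc0]
        exact hΘd.hasFDerivAt
      have := h6.comp_hasDerivAt 0 (hcd 0)
      rw [hc'0] at this
      exact this
    have h7 := h5.inner ℝ hc'd
    rw [hc'0, hc0] at h7
    exact h7
  have h8 := hd1.unique hd2
  -- the acceleration does not see `Θ`
  have h9 : ⟪Θ p, par s a b⟫ = 0 := by
    rw [real_inner_comm]
    exact hΘ0 p
  have h10 : ⟪Θ p, JE s a b⟫ = 0 := by
    rw [hΘ p (norm_par _ _ _)]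
    have e1 : jf p (JE s a b) = 0 := by
      simp only [jf, hp, par, JE, vec_0, vec_1, vec_2, vec_3]
      have h2 := Real.sin_sq_add_cos_sq a
      have h3 := Real.sin_sq_add_cos_sq b
      linear_combination (-Real.cos s * Real.sin s) * h2 + Real.cos s * Real.sin s * h3
    have e2 : ⟪p, JE s a b⟫ = 0 := by
      rw [inner_eq4]
      simp only [hp, par, JE, vec_0, vec_1, vec_2, vec_3]
      ring
    have e3 : fderiv ℝ P p (JE s a b) = 0 := by
      have h1 : HasDerivAt (fun t : ℝ => p + t • JE s a b) (JE s a b) 0 := by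
        simpa using ((hasDerivAt_id (0 : ℝ)).smul_const (JE s a b)).const_add p
      have h2 : HasDerivAt (fun t : ℝ => P (p + t • JE s a b)) (fderiv ℝ P p (JE s a b)) 0 := by
        have h6 : HasFDerivAt P (fderiv ℝ P p) (p + (0 : ℝ) • JE s a b) := by
          simpa using (hPd p).hasFDerivAt
        exact h6.comp_hasDerivAt (0 : ℝ) h1
      refine deriv_even h2 fun t => hP2 _ _ ?_ ?_
      · simp only [hp, par, JE, PiLp.add_apply, PiLp.smul_apply, vec_0, vec_1, vec_2, vec_3,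
          smul_eq_mul]
        ring
      · simp only [hp, par, JE, PiLp.add_apply, PiLp.smul_apply, vec_0, vec_1, vec_2, vec_3,
          smul_eq_mul]
        ring
    rw [e1, e2, e3]
    ring
  rw [inner_add_right, inner_smul_right, inner_smul_right, h9, h10] at h8
  linarith

lemma norm_vel (α β s a b : ℝ) : ‖vel α β s a b‖ ^ 2 = α ^ 2 + β ^ 2 := by
  rw [← real_inner_self_eq_norm_sq, inner_eq4]
  simp only [vel, vec_0, vec_1, vec_2, vec_3]
  have h1 := Real.sin_sq_add_cos_sq s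
  have h2 := Real.sin_sq_add_cos_sq a
  have h3 := Real.sin_sq_add_cos_sq b
  linear_combination (α ^ 2 * (Real.sin s) ^ 2 + β ^ 2 * (Real.cos s) ^ 2) * h2
      + (α ^ 2 * (Real.cos s) ^ 2 + β ^ 2 * (Real.sin s) ^ 2) * h3 + (α ^ 2 + β ^ 2) * h1

lemma inner_vel (α β s a b : ℝ) : ⟪par s a b, vel α β s a b⟫ = 0 := by
  rw [inner_eq4]
  simp only [par, vel, vec_0, vec_1, vec_2, vec_3]
  have h2 := Real.sin_sq_add_cos_sq a
  have h3 := Real.sin_sq_add_cos_sq b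
  linear_combination (-α) * Real.cos s * Real.sin s * h2 + α * Real.cos s * Real.sin s * h3

/-- At every point of the unit sphere the form `e ↦ ⟪DΘ e, e⟫ - |e|²` takes both signs on the
tangent space. -/
theorem two_signs (M : ℕ) (hM : 1 ≤ M) (P : E4 → ℝ) (hPd : Differentiable ℝ P)
    (hP1 : ∀ s a b, P (par s a b) = Real.cos (2 * M * s))
    (hP2 : ∀ x y : E4, x 0 ^ 2 + x 1 ^ 2 = y 0 ^ 2 + y 1 ^ 2 →
      x 2 ^ 2 + x 3 ^ 2 = y 2 ^ 2 + y 3 ^ 2 → P x = P y)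
    (Θ : E4 → E4) (hΘ0 : ∀ x, ⟪x, Θ x⟫ = 0)
    (hΘ : ∀ x, ‖x‖ = 1 → ∀ w, ⟪Θ x, w⟫ =
      -(3 / (M : ℝ)) * P x * (jf x w + 1 / (2 * M) * fderiv ℝ P x w - P x * ⟪x, w⟫))
    (p : E4) (hp : ‖p‖ = 1) (hΘd : DifferentiableAt ℝ Θ p) :
    (∃ e, e ≠ 0 ∧ ⟪p, e⟫ = 0 ∧ ⟪fderiv ℝ Θ p e, e⟫ < ‖e‖ ^ 2) ∧
      ∃ e, e ≠ 0 ∧ ⟪p, e⟫ = 0 ∧ ‖e‖ ^ 2 < ⟪fderiv ℝ Θ p e, e⟫ := by
  obtain ⟨s, a, b, rfl⟩ := exists_par p hp
  have key := key_form M hM P hPd hP1 hP2 Θ hΘ0 hΘ s a b hΘd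
  have hne : ∀ α β : ℝ, 0 < α ^ 2 + β ^ 2 → vel α β s a b ≠ 0 := by
    intro α β h h0
    have := norm_vel α β s a b
    rw [h0] at this
    simp at this
    linarith
  constructor
  · refine ⟨vel 0 1 s a b, hne 0 1 (by norm_num), inner_vel _ _ _ _ _, ?_⟩
    rw [key, norm_vel]
    norm_num
  · set S := Real.sin (2 * M * s) with hS
    have hS1 : S ^ 2 ≤ 1 := by
      have := Real.sin_sq_add_cos_sq (2 * M * s)
      nlinarith [sq_nonneg (Real.cos (2 * M * s))]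
    have hcos : Real.cos (2 * (2 * M * s)) = 1 - 2 * S ^ 2 := by
      rw [Real.cos_two_mul, hS]
      have := Real.sin_sq_add_cos_sq (2 * M * s)
      linarith
    rcases le_total 0 S with h | h
    · refine ⟨vel 1 2 s a b, hne 1 2 (by norm_num), inner_vel _ _ _ _ _, ?_⟩
      rw [key, norm_vel, hcos]
      nlinarith
    · refine ⟨vel 1 (-2) s a b, hne 1 (-2) (by norm_num), inner_vel _ _ _ _ _, ?_⟩
      rw [key, norm_vel, hcos]
      nlinarith

end Signs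

end Pool.Agent.Lib_MP_a29272_sp
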